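import Pool.Agent.H7.HD.Tools2

/-!
# MP_e37c09_lc: module HH
-/

open Ordinal Cardinal Order Set
open scoped ZFSet

universe u

namespace Pool.Agent.H20.HD.HH

open _root_.HD

/-- HH. -/
theorem hh (hEA : T_EA.{u}) (hVA : T_VA.{u}) (hVF : T_VF.{u}) : T_HH.{u} := by
  intro en M N K c d h X hX
  have hK : ℵ₀ < K.ord.cof := by
    rw [h.kreg.cof_ord]
    exact h.mreg.aleph0_le.trans_lt (h.mn.trans h.nk)
  refine ⟨fun h1 => ?_, fun h1 => ?_⟩
  · have h2 := hVF M.ord N K h.nreg h.kreg h.nk _ h1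
    intro h3
    exact h2 (h3.mono fun b _ hb _ => hb.2)
  · obtain ⟨x, hx⟩ := (hEA en h.hen).2.2.1 X hX K.ord
    have h2 : Pos M.ord K.ord (E en c \ E en x) := by
      refine h1.mono fun b hb hb' _ => ⟨hb'.1, ?_⟩
      rw [hx]
      exact fun h => hb'.2 h.1
    have h3 : ¬ Pos M.ord K.ord (E en c ∩ X) := by
      intro h3
      refine h.ac.ult x ⟨h3.mono fun b hb hb' _ => ⟨hb'.1, ?_⟩, h2⟩
      rw [hx]
      exact ⟨hb'.2, hb⟩
    have h4 := hVF M.ord N K h.nreg h.kreg h.nk _ h3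
    have h5 := null_union hVA hK h.pos h4
    intro h6
    apply h5
    refine h6.mono fun α _ hα hcf => ?_
    have hcof : ℵ₀ < α.cof := by
      have h7 : α.cof = N := Cardinal.ord_injective hcf
      rw [h7]
      exact h.mreg.aleph0_le.trans_lt h.mn
    by_cases h8 : Pos M.ord α (E en c)
    · right
      show Pos M.ord α (E en c ∩ X)
      by_contra h9
      refine null_union hVA hcof h9 hα.2 (h8.mono fun b _ hb _ => ?_)
      by_cases hbX : b ∈ X
      · exact Or.inl ⟨hb, hbX⟩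
      · exact Or.inr ⟨hb, hbX⟩
    · exact Or.inl ⟨hα.1, h8⟩

end Pool.Agent.H20.HD.HH
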