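import Pool.Agent.H7.HD.Tools2

/-!
# MP_e37c09_lc: module VG
-/

open Ordinal Cardinal Order Set
open scoped ZFSet

universe u

namespace Pool.Agent.H20.HD.VG

open _root_.HD

/-- VG. -/
theorem vg : T_VG.{u} := by
  intro α hα
  obtain ⟨f, hf⟩ := exists_isFundamentalSeq (o := α) rfl
  have hν : IsSuccLimit α.cof.ord := by
    apply Cardinal.isSuccLimit_ord
    exact Ordinal.aleph0_le_cof_iff.2 (Ordinal.one_lt_cof_iff.2 hα)
  let S : Ordinal.{u} → Set Ordinal.{u} := fun a => {x | ∃ i, i.1 < a ∧ x = (f i).1}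
  let s : Ordinal.{u} → Ordinal.{u} := fun a => sSup (S a)
  have hbdd : ∀ a, BddAbove (S a) := by
    intro a
    refine ⟨α, ?_⟩
    rintro x ⟨i, -, rfl⟩
    exact (f i).2.le
  have hle : ∀ a i, i.1 < a → (f i).1 ≤ s a := fun a i hi => le_csSup (hbdd a) ⟨i, hi, rfl⟩
  have hsle : ∀ a y, (∀ i, i.1 < a → (f i).1 ≤ y) → s a ≤ y := by
    intro a y h
    rcases (S a).eq_empty_or_nonempty with he | hne
    · show sSup (S a) ≤ y
      rw [he, csSup_empty]
      exact bot_le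
    · refine csSup_le hne ?_
      rintro x ⟨i, hi, rfl⟩
      exact h i hi
  refine ⟨{x | x < α ∧ ∃ a < α.cof.ord, s a = x}, ⟨?_, ?_⟩, fun b hb => hb.1,
    s, fun x hx => hx.2⟩
  · intro a ha
    obtain ⟨_, ⟨i, rfl⟩, hi⟩ := hf.isCofinal_range ⟨succ a, hα.succ_lt ha⟩
    have hi' : succ a ≤ (f i).1 := hi
    have hs : s (succ i.1) = (f i).1 := by
      apply le_antisymm
      · refine hsle _ _ fun j hj => ?_
        have : j.1 ≤ i.1 := Order.lt_succ_iff.1 hj
        exact hf.strictMono.monotone this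
      · exact hle _ _ (Order.lt_succ _)
    exact ⟨(f i).1, (f i).2, Order.succ_le_iff.1 hi', (f i).2, succ i.1,
      hν.succ_lt i.2, hs⟩
  · intro x hx _ h
    refine ⟨hx, ?_⟩
    have hex : ∃ a : Ordinal.{u}, ∃ i : Iio α.cof.ord, i.1 = a ∧ x ≤ (f i).1 := by
      obtain ⟨_, ⟨i, rfl⟩, hi⟩ := hf.isCofinal_range ⟨x, hx⟩
      exact ⟨i.1, i, rfl, hi⟩
    obtain ⟨a, ⟨i, hia, hi⟩, hmin⟩ := WellFounded.has_min (wellFounded_lt (α := Ordinal.{u}))
      {a | ∃ i : Iio α.cof.ord, i.1 = a ∧ x ≤ (f i).1} hex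
    have hlow : ∀ k : Iio α.cof.ord, k.1 < a → (f k).1 < x := by
      intro k hk
      by_contra hc
      exact hmin k.1 ⟨k, rfl, not_lt.1 hc⟩ hk
    refine ⟨a, hia ▸ i.2, le_antisymm (hsle _ _ fun k hk => (hlow k hk).le) ?_⟩
    by_contra hc
    push Not at hc
    obtain ⟨z, hzx, hz, _, c, hc', hcz⟩ := h _ hc
    rcases le_or_gt c a with h1 | h1
    · have : s c ≤ s a := hsle _ _ fun k hk => hle _ _ (hk.trans_le h1)
      rw [hcz] at this
      exact absurd hz (not_lt.2 this)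
    · have : (f i).1 ≤ s c := hle _ _ (hia ▸ h1)
      rw [hcz] at this
      exact absurd hzx (not_lt.2 (hi.trans this))

end Pool.Agent.H20.HD.VG
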