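import Pool.Agent.H20.HD.OT

/-!
# MP_e37c09_lc: module CS
-/

open Ordinal Cardinal Order Set
open scoped ZFSet

universe u

namespace Pool.Agent.H20.HD.CS

open _root_.HD Pool.Agent.H20.HD.OT

theorem pos_ex {μ ρ : Ordinal.{u}} (hρ : IsSuccLimit ρ) {X : Set Ordinal.{u}} (h : Pos μ ρ X) :
    ∃ b < ρ, b ∈ X := by
  obtain ⟨b, hb, -, h1, -⟩ := h univ ⟨fun a ha => ⟨succ a, hρ.succ_lt ha, lt_succ a, trivial⟩,
    fun _ _ _ _ => trivial⟩
  exact ⟨b, hb, h1⟩

theorem cof_le_of {κ : Ordinal.{u}} {Y : Set Ordinal.{u}} {C : Cardinal.{u}}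
    (h : ∀ b < κ, ∃ y ∈ Y, y < κ ∧ b ≤ y) (hC : #Y ≤ Cardinal.lift.{u + 1} C) : κ.cof ≤ C := by
  have h1 : IsCofinal {y : Iio κ | y.1 ∈ Y} := by
    intro b
    obtain ⟨y, hy, hyκ, hby⟩ := h b.1 b.2
    exact ⟨⟨y, hyκ⟩, hy, hby⟩
  have h2 := Order.cof_le h1
  have h3 : #{y : Iio κ | y.1 ∈ Y} ≤ #Y := by
    refine Cardinal.mk_le_of_injective (f := fun y => ⟨y.1.1, y.2⟩) ?_
    intro a b hab
    apply Subtype.ext
    apply Subtype.ext
    exact congrArg (fun t : Y => (t : Ordinal.{u})) hab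
  rw [Ordinal.cof_Iio, ← Ordinal.lift_cof] at h2
  exact Cardinal.lift_le.1 (h2.trans (h3.trans hC))

theorem mk_Iio_ord (K : Cardinal.{u}) : #(Iio K.ord) = Cardinal.lift.{u + 1} K := by
  rw [Cardinal.mk_Iio_ordinal, Cardinal.card_ord]

/-- the image of a function on `τ` is covered by `τ` -/
theorem few_of_pk {κ lam : Ordinal.{u}} {S : Set Ordinal.{u}} (h : os lam S ∈ PkHOD κ lam) :
    Few κ (S ∩ Iio lam) := by
  unfold PkHOD at h
  rw [ZFSet.mem_sep] at h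
  obtain ⟨-, τ, hτ, f, -, hf, hs⟩ := h
  classical
  refine ⟨τ, hτ, fun a => if h : ∃ b : Ordinal.{u}, ZFSet.pair a.toZFSet b.toZFSet ∈ f
    then h.choose else 0, fun z hz => ?_⟩
  obtain ⟨a, ha, hp⟩ := hs z.toZFSet (ord_mem_os.2 ⟨hz.2, hz.1⟩)
  refine ⟨a, ha, ?_⟩
  have hex : ∃ b : Ordinal.{u}, ZFSet.pair a.toZFSet b.toZFSet ∈ f := ⟨z, hp⟩
  beta_reduce
  rw [dif_pos hex]
  exact toZFSet_injective ((hf.2 a.toZFSet (toZFSet_mem_toZFSet_iff.2 ha)).unique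
    hex.choose_spec hp)

/-- a small set has few indices -/
theorem idx_of_few (hVH : T_VH.{u}) {K : Cardinal.{u}} {S : Set Ordinal.{u}}
    (h : Few K.ord S) : ∃ a < K.ord, ¬ ∃ z, nth S a z := by
  by_contra hc
  push Not at hc
  choose! g hg using hc
  have h1 := few_iff.1 h
  have h2 : #(Iio K.ord) ≤ #S := by
    refine Cardinal.mk_le_of_injective (f := fun a => ⟨g a.1, (hg a.1 a.2).1⟩) ?_
    intro a b hab
    have h3 : g a.1 = g b.1 := congrArg Subtype.val hab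
    apply Subtype.ext
    rcases lt_trichotomy a.1 b.1 with h4 | h4 | h4
    · have := ((hVH S).2.1 _ _ _ _ (hg a.1 a.2) (hg b.1 b.2)).1 h4
      exact absurd this (h3 ▸ lt_irrefl _)
    · exact h4
    · have := ((hVH S).2.1 _ _ _ _ (hg b.1 b.2) (hg a.1 a.2)).1 h4
      exact absurd this (h3 ▸ lt_irrefl _)
  rw [mk_Iio_ord] at h2
  exact absurd h1 (not_lt.2 h2)

/-- regular cardinals are regular in HOD -/
theorem regHOD_ord {K : Cardinal.{u}} (hK : K.IsRegular) : RegHOD K.ord := by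
  refine ⟨Cardinal.isSuccLimit_ord hK.aleph0_le, ?_⟩
  rintro ⟨τ, hτ, f, -, hf, hc⟩
  classical
  have h1 : K.ord.cof ≤ τ.card := by
    refine cof_le_of (Y := {c | c < K.ord ∧ ∃ a < τ, ZFSet.pair a.toZFSet c.toZFSet ∈ f}) ?_ ?_
    · intro b hb
      obtain ⟨a, ha, c, hbc, hp⟩ := hc b hb
      have h2 := hf.1 hp
      rw [ZFSet.pair_mem_prod, toZFSet_mem_toZFSet_iff, toZFSet_mem_toZFSet_iff] at h2
      exact ⟨c, ⟨h2.2, a, ha, hp⟩, h2.2, hbc⟩
    · refine cov_iff.1 ⟨fun a => if h : ∃ b : Ordinal.{u}, ZFSet.pair a.toZFSet b.toZFSet ∈ f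
        then h.choose else 0, ?_⟩
      rintro z ⟨-, a, ha, hp⟩
      refine ⟨a, ha, ?_⟩
      have hex : ∃ b : Ordinal.{u}, ZFSet.pair a.toZFSet b.toZFSet ∈ f := ⟨z, hp⟩
      beta_reduce
      rw [dif_pos hex]
      exact toZFSet_injective ((hf.2 a.toZFSet (toZFSet_mem_toZFSet_iff.2 ha)).unique
        hex.choose_spec hp)
  rw [hK.cof_ord] at h1
  exact absurd (Cardinal.lt_ord.1 hτ) (not_lt.2 h1)

/-- CS. -/
theorem cs (hCF : T_CF.{u}) : T_CS.{u} := by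
  have hVH := All.vh.{u}
  have hVA := All.va.{u}
  intro en hen D M K lam c x hlam hat hfam hD hDK hKs hKl
  by_contra hne
  have hD0 : ℵ₀ < D := hD.2.2.1
  have hK0 : ℵ₀ ≤ K := (hD0.trans hDK).le
  have hlamL : IsSuccLimit lam := by
    rw [← Ordinal.one_lt_cof_iff]
    exact Cardinal.one_lt_aleph0.trans hlam
  let S : Ordinal.{u} → Set Ordinal.{u} := fun β => {i | x β i ∧ i < lam}
  have hSeq : ∀ β, S β = {i | x β i} ∩ Iio lam := fun β => rfl
  -- the bad points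
  let Bad : Set Ordinal.{u} := {β | β ∈ E en c ∧ os lam {i | x β i} ∉ PkHOD K.ord lam}
  have hBad : ¬ Pos M.ord lam Bad := hfam.small
  have hgood : ∀ β ∈ E en c, β ∉ Bad → Few K.ord (S β) := by
    intro β hβ hb
    have h1 : os lam {i | x β i} ∈ PkHOD K.ord lam := by
      by_contra h
      exact hb ⟨hβ, h⟩
    exact few_of_pk h1
  -- definability
  have hnth : DO fun w : ℕ → Ordinal.{u} => nth (S (w 2)) (w 0) (w 1) :=
    (All.db (fun a w => x (w 0) a ∧ a < lam) ((hfam.dr.s2 1 0).and (DO.ltc 0 lam))).congr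
      fun w => Iff.rfl
  have hidx : DR fun a β => ∃ z, nth (S β) a z := by
    refine DO.ex (R := fun z w => nth (S (w 1)) (w 0) z) ?_
    exact (hnth.ren (fun n => if n = 0 then 1 else if n = 1 then 0 else 2)).congr fun w => by simp
  have hSd : ∀ β, DS (S β) := by
    intro β
    have h1 := DO.sect1 hfam.dr β
    exact (DO.and h1 (DO.ltc 0 lam)).congr fun w => Iff.rfl
  have hnd : ∀ β, DR fun a z => nth (S β) a z := fun β =>
    All.db (fun a _ => a ∈ S β) ((hSd β).congr fun _ => Iff.rfl)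
  -- cardinality of the cofinality
  have hνr : lam.cof.IsRegular := Cardinal.isRegular_cof hlamL
  have hνK : lam.cof < K := by
    rcases lt_trichotomy lam.cof K with h | h | h
    · exact h
    · exact absurd (h ▸ hνr) hKs
    · exfalso
      have h1 := hVA M.ord lam hlam K.ord (by rw [Cardinal.card_ord]; exact h)
        (fun i => {β | β ∈ E en c ∧ ¬ x β i}) (fun i hi => hfam.fine i (hi.trans hKl))
      obtain ⟨β, -, ⟨⟨hβc, hβb⟩, hβx⟩⟩ := pos_ex hlamL (pos_diff hVA hlam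
        (pos_diff hVA hlam hat.pos hBad) h1)
      have h2 : ∀ i < K.ord, x β i := by
        intro i hi
        by_contra h
        exact hβx ⟨i, hi, hβc, h⟩
      have h3 := few_iff.1 (hgood β hβc hβb)
      have h4 : Iio K.ord ⊆ S β := fun i hi => ⟨h2 i hi, lt_trans hi hKl⟩
      have h5 := Cardinal.mk_le_mk_of_subset h4
      rw [mk_Iio_ord] at h5
      exact absurd h3 (not_lt.2 h5)
  -- the order types are bounded
  have hbound : ∃ κ0 < K.ord, ¬ Pos M.ord lam {β | β ∈ E en c ∧ ∃ z, nth (S β) κ0 z} := by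
    by_contra hcon
    push Not at hcon
    have hnull : ∀ κ0 < K.ord, ¬ Pos M.ord lam {β | β ∈ E en c ∧ ¬ ∃ z, nth (S β) κ0 z} := by
      intro κ0 hκ0 hp
      obtain ⟨e, he⟩ := (All.ea.{u} en hen).2.2.1 {β | ∃ z, nth (S β) κ0 z}
        (DO.sect1 hidx κ0) lam
      refine hat.ult e ⟨(hcon κ0 hκ0).mono fun b hb h _ => ?_, hp.mono fun b hb h _ => ?_⟩
      · rw [he]
        exact ⟨h.1, h.2, hb⟩
      · rw [he]
        exact ⟨h.1, fun h' => h.2 h'.1⟩
    apply hne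
    apply le_antisymm
    · -- a small club
      obtain ⟨B, hB, hBl, e, he⟩ := All.vg.{u} lam hlamL
      let T : Ordinal.{u} → Ordinal.{u} := fun β => sInf {a | ¬ ∃ z, nth (S β) a z}
      refine cof_le_of (Y := T '' B) ?_ ?_
      · intro b hb
        have h1 := pos_diff hVA hlam (hcon b hb) hBad
        obtain ⟨β, hβl, hβB, ⟨⟨hβc, hβz⟩, hβb⟩, -⟩ := h1 B hB
        obtain ⟨a, ha, hna⟩ := idx_of_few hVH (hgood β hβc hβb)
        have h2 : T β ∈ {a | ¬ ∃ z, nth (S β) a z} := csInf_mem ⟨a, hna⟩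
        have h3 : T β ≤ a := csInf_le' hna
        obtain ⟨z, hz⟩ := hβz
        exact ⟨T β, ⟨β, hβB, rfl⟩, h3.trans_lt ha, (idx_lt hVH h2 hz).le⟩
      · have h1 : #B ≤ Cardinal.lift.{u + 1} lam.cof := by
          have := cov_iff.1 ⟨e, he⟩
          rwa [Cardinal.card_ord] at this
        exact Cardinal.mk_image_le.trans h1
    · by_contra hlt
      push Not at hlt
      obtain ⟨f, hf⟩ := exists_isFundamentalSeq (o := K.ord) rfl
      have h1 := hVA M.ord lam hlam K.ord.cof.ord (by rw [Cardinal.card_ord]; exact hlt)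
        (fun i => {β | β ∈ E en c ∧ ∃ h : i < K.ord.cof.ord, ¬ ∃ z, nth (S β) (f ⟨i, h⟩).1 z})
        (fun i hi hp => hnull (f ⟨i, hi⟩).1 (f ⟨i, hi⟩).2
          (hp.mono fun b _ hb _ => ⟨hb.1, hb.2.2⟩))
      obtain ⟨β, -, ⟨⟨hβc, hβb⟩, hβx⟩⟩ := pos_ex hlamL (pos_diff hVA hlam
        (pos_diff hVA hlam hat.pos hBad) h1)
      obtain ⟨a, ha, hna⟩ := idx_of_few hVH (hgood β hβc hβb)
      obtain ⟨_, ⟨i, rfl⟩, hi⟩ := hf.isCofinal_range ⟨a, ha⟩
      apply hβx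
      refine ⟨i.1, i.2, hβc, i.2, ?_⟩
      rintro ⟨z, hz⟩
      exact absurd (idx_lt hVH hna hz) (not_lt.2 hi)
  obtain ⟨κ0, hκ0, hnull⟩ := hbound
  -- a regular cardinal below `K`
  let m : Cardinal.{u} := max κ0.card (max lam.cof D)
  have hmK : m < K := max_lt (Cardinal.lt_ord.1 hκ0) (max_lt hνK hDK)
  have hm0 : ℵ₀ ≤ m := hD0.le.trans ((le_max_right _ _).trans (le_max_right _ _))
  have hreg : (succ m).IsRegular := Cardinal.isRegular_succ hm0
  have hmK' : succ m < K := by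
    refine lt_of_le_of_ne (Order.succ_le_of_lt hmK) ?_
    intro h
    exact hKs (h ▸ hreg)
  have hfam' : Fam en M (succ m).ord lam c x := by
    refine ⟨hfam.dr, ?_, hfam.fine⟩
    intro hp
    obtain ⟨β, -, ⟨⟨hβc, hβp⟩, hβn⟩⟩ := pos_ex hlamL (pos_diff hVA hlam hp hnull)
    apply hβp
    have hκi : ¬ ∃ z, nth (S β) κ0 z := fun h => hβn ⟨hβc, h⟩
    -- the least ordinal which is not an index
    obtain ⟨τ, hτ, hτm⟩ := WellFounded.has_min (wellFounded_lt (α := Ordinal.{u}))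
      {a | ¬ ∃ z, nth (S β) a z} ⟨κ0, hκi⟩
    have hτκ : τ ≤ κ0 := not_lt.1 (hτm κ0 hκi)
    have hex : ∀ a < τ, ∃ z, nth (S β) a z := by
      intro a ha
      by_contra h
      exact hτm a h ha
    unfold PkHOD
    rw [ZFSet.mem_sep, ZFSet.mem_powerset]
    refine ⟨?_, τ, ?_, rs τ lam (fun a z => nth (S β) a z), hod_rs (hnd β) τ lam, ⟨?_, ?_⟩, ?_⟩
    · intro z hz
      obtain ⟨a, ha, -, rfl⟩ := mem_os.1 hz
      exact toZFSet_mem_toZFSet_iff.2 ha
    · refine hτκ.trans_lt ?_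
      rw [Cardinal.lt_ord]
      exact (le_max_left _ _).trans_lt (lt_succ m)
    · intro p hp'
      obtain ⟨a, ha, b, hb, hab, rfl⟩ := mem_rs.1 hp'
      rw [ZFSet.pair_mem_prod]
      exact ⟨toZFSet_mem_toZFSet_iff.2 ha, ord_mem_os.2 ⟨hb, hab.1.1⟩⟩
    · intro z hz
      obtain ⟨a, ha, rfl⟩ := mem_toZFSet_iff.1 hz
      obtain ⟨y, hy⟩ := hex a ha
      refine ⟨y.toZFSet, pair_mem_rs.2 ⟨ha, hy.1.2, hy⟩, ?_⟩
      intro w hw
      obtain ⟨a', ha', b, hb, hab, he⟩ := mem_rs.1 hw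
      obtain ⟨h1, h2⟩ := ZFSet.pair_injective he
      rw [toZFSet_injective h1] at hy
      rw [h2, nth_uniq hVH hab hy]
    · intro b hb
      obtain ⟨z, hz, hxz, rfl⟩ := mem_os.1 hb
      obtain ⟨a, -, ha⟩ := (hVH (S β)).1 z ⟨hxz, hz⟩
      have h1 := idx_lt hVH hτ ha
      exact ⟨a, h1, pair_mem_rs.2 ⟨h1, hz, ha⟩⟩
  have h1 := hCF en hen M (succ m).ord lam c x hlam hat hfam' (regHOD_ord hreg)
    ((Cardinal.ord_lt_ord.2 hmK').trans hKl)
  rw [hreg.cof_ord] at h1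
  have h2 : lam.cof ≤ m := (le_max_left _ _).trans (le_max_right _ _)
  exact absurd (h1 ▸ h2) (not_le.2 (lt_succ m))

end Pool.Agent.H20.HD.CS
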