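import Pool.Agent.H20.HD.OT

/-!
# MP_e37c09_lc: module CO
-/

open Ordinal Cardinal Order Set
open scoped ZFSet

universe u

namespace Pool.Agent.H20.HD.CO

open _root_.HD Pool.Agent.H20.HD.OT

/-- a strictly increasing function on the ordinals below `i` -/
theorem le_of_incr {i : Ordinal.{u}} {h : Ordinal.{u} → Ordinal.{u}}
    (hh : ∀ x y, x < y → y < i → h x < h y) : ∀ x < i, x ≤ h x := by
  intro x
  induction x using WellFoundedLT.induction with
  | ind x ih =>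
    intro hx
    by_contra hc
    push Not at hc
    have h1 := ih _ hc (hc.trans hx)
    have h2 := hh _ _ hc hx
    exact absurd h1 (not_le.2 h2)

/-- CO. -/
theorem co : T_CO.{u} := by
  have hVH := All.vh.{u}
  intro en hen β hβ
  obtain ⟨hE1, -, hE3, -⟩ := All.ea.{u} en hen
  let G : Ordinal.{u} → Ordinal.{u} → Prop := fun τ e => E en e ⊆ Iio β ∧
    (∀ b < β, ∃ a ∈ E en e, b ≤ a) ∧ ∀ z ∈ E en e, ∃ a < τ, nth (E en e) a z
  have hβS : β ∈ {τ | ∃ e, G τ e} := by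
    obtain ⟨c, hc⟩ := hE3 univ ((DO.cst True).congr fun w => by simp) β
    rw [univ_inter] at hc
    refine ⟨c, ?_, ?_, ?_⟩
    · rw [hc]
    · intro b hb
      exact ⟨b, by rw [hc]; exact hb, le_rfl⟩
    · intro z hz
      obtain ⟨a, ha, h⟩ := (hVH (E en c)).1 z hz
      rw [hc] at hz
      exact ⟨a, ha.trans_lt hz, h⟩
  obtain ⟨τ, ⟨e, hX1, hX2, hX3⟩, hmin⟩ := WellFounded.has_min (wellFounded_lt (α := Ordinal.{u}))
    {τ | ∃ e, G τ e} ⟨β, hβS⟩
  have hmin' : ∀ τ' < τ, ∀ e, ¬ G τ' e := fun τ' h e he => hmin τ' ⟨e, he⟩ h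
  have hτβ : τ ≤ β := not_lt.1 (hmin β hβS)
  set X := E en e with hX
  -- every `a < τ` is an index
  have hidx : ∀ a < τ, ∃ z, nth X a z := by
    intro a ha
    by_contra hc
    refine hmin' a ha e ⟨hX1, hX2, fun z hz => ?_⟩
    obtain ⟨b, hb, hbz⟩ := hX3 z hz
    exact ⟨b, idx_lt hVH hc hbz, hbz⟩
  -- `τ` is a limit
  have hβ0 : 0 < β := hβ.bot_lt
  have hτ0 : τ ≠ 0 := by
    rintro rfl
    obtain ⟨z, hz, -⟩ := hX2 0 hβ0
    obtain ⟨a, ha, -⟩ := hX3 z hz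
    exact absurd ha (not_lt.2 bot_le)
  have hτl : IsSuccLimit τ := by
    rw [Ordinal.isSuccLimit_iff]
    refine ⟨hτ0, fun s hs => ?_⟩
    obtain ⟨z, hz⟩ := hidx s hs.1
    obtain ⟨z', hz', hle⟩ := hX2 (succ z) (hβ.succ_lt (hX1 hz.1))
    obtain ⟨a', ha', h'⟩ := hX3 z' hz'
    have h1 : s < a' := ((hVH X).2.1 s a' z z' hz h').2 (Order.succ_le_iff.1 hle)
    exact hs.2 h1 ha'
  -- the cofinality
  have hcof : τ.cof = β.cof := by
    choose! g hg using hidx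
    let f : Iio τ → Iio β := fun a => ⟨g a.1, hX1 (hg a.1 a.2).1⟩
    have hf : StrictMono f := by
      intro a b hab
      show g a.1 < g b.1
      exact ((hVH X).2.1 _ _ _ _ (hg a.1 a.2) (hg b.1 b.2)).1 hab
    have hf' : IsCofinal (range f) := by
      intro b
      obtain ⟨z, hz, hbz⟩ := hX2 b.1 b.2
      obtain ⟨a, ha, h⟩ := hX3 z hz
      refine ⟨f ⟨a, ha⟩, ⟨_, rfl⟩, ?_⟩
      show b.1 ≤ g a
      rw [nth_uniq hVH (hg a ha) h]
      exact hbz
    have h1 := Order.cof_congr_of_strictMono hf hf'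
    rw [Ordinal.cof_Iio, Ordinal.cof_Iio, ← Ordinal.lift_cof, ← Ordinal.lift_cof] at h1
    exact Cardinal.lift_injective h1
  refine ⟨e, τ, hτβ, ⟨hτl, ?_⟩, hcof, hX1, hX2, hX3⟩
  -- not singular in HOD
  rintro ⟨τ', hτ', f, hf, hfn, hfc⟩
  have hfu : ∀ a c c', ZFSet.pair a c ∈ f → ZFSet.pair a c' ∈ f → c = c' := by
    intro a c c' h h'
    have h1 := hfn.1 h
    rw [ZFSet.pair_mem_prod] at h1
    exact (hfn.2 a h1.1).unique h h'
  have hfd : ∀ a c : Ordinal.{u}, ZFSet.pair a.toZFSet c.toZFSet ∈ f → a < τ' ∧ c < τ := by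
    intro a c h
    have h1 := hfn.1 h
    rw [ZFSet.pair_mem_prod, toZFSet_mem_toZFSet_iff, toZFSet_mem_toZFSet_iff] at h1
    exact h1
  let F : Ordinal.{u} → Ordinal.{u} → Prop := fun a c => ZFSet.pair a.toZFSet c.toZFSet ∈ f
  have hF : DR F := hf.od.dr
  have hXd : DS X := by
    have := hE1
    exact (DO.sect (P := fun x w => x ∈ E en (w 0)) (hE1.congr fun _ => Iff.rfl) (fun _ => e))
  have hR : DR fun a z => nth X a z :=
    All.db (fun a _ => a ∈ X) (hXd.congr fun _ => Iff.rfl)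
  let B : Set Ordinal.{u} := {z | ∃ a < τ', ∃ c, F a c ∧ nth X c z ∧
    ∀ a' < a, ∀ c', F a' c' → c' < c}
  have hB : DS B := by
    refine DO.exLtc (R := fun a w => ∃ c, F a c ∧ nth X c (w 0) ∧ ∀ a' < a, ∀ c', F a' c' → c' < c)
      τ' ?_
    refine DO.ex (R := fun c w => F (w 0) c ∧ nth X c (w 1) ∧
      ∀ a' < w 0, ∀ c', F a' c' → c' < c) ?_
    refine DO.and (hF.s2 1 0) (DO.and (hR.s2 0 2) ?_)
    refine DO.allLt (R := fun a' w => ∀ c', F a' c' → c' < w 0) 1 ?_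
    refine DO.all (R := fun c' w => F (w 0) c' → c' < w 1) ?_
    exact DO.imp (hF.s2 1 0) (DO.lt 0 2)
  have hBX : ∀ z ∈ B, z ∈ X := by
    rintro z ⟨a, -, c, -, h, -⟩
    exact h.1
  obtain ⟨e', he'⟩ := hE3 B hB β
  have heB : E en e' = B := by
    rw [he']
    exact inter_eq_left.2 fun z hz => hX1 (hBX z hz)
  refine hmin' τ' hτ' e' ⟨?_, ?_, ?_⟩
  · rw [heB]
    exact fun z hz => hX1 (hBX z hz)
  · rw [heB]
    intro b hb
    obtain ⟨z0, hz0, hbz0⟩ := hX2 b hb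
    obtain ⟨c0, hc0, hn0⟩ := hX3 z0 hz0
    obtain ⟨a1, ha1, c1, hc1, hm1⟩ := hfc c0 hc0
    obtain ⟨a, ⟨c, hFc, hcc⟩, hamin⟩ := WellFounded.has_min (wellFounded_lt (α := Ordinal.{u}))
      {a | ∃ c, F a c ∧ c0 ≤ c} ⟨a1, c1, hm1, hc1⟩
    obtain ⟨ha, hc⟩ := hfd a c hFc
    obtain ⟨z, hz⟩ := hidx c hc
    refine ⟨z, ⟨a, ha, c, hFc, hz, fun a' ha' c' hc' => ?_⟩, hbz0.trans ?_⟩
    · by_contra h
      exact hamin a' ⟨c', hc', hcc.trans (not_lt.1 h)⟩ ha'
    · rcases eq_or_lt_of_le hcc with h | h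
      · rw [← h] at hz
        rw [nth_uniq hVH hn0 hz]
      · exact (((hVH X).2.1 _ _ _ _ hn0 hz).1 h).le
  · rw [heB]
    intro z hz
    obtain ⟨i, -, hi⟩ := (hVH B).1 z hz
    have hB' := fun z (hz : z ∈ B) => hz
    choose! A hA C hC1 hC2 hC3 using hB'
    -- the map is strictly increasing
    have hinc : ∀ z ∈ B, ∀ y ∈ B, z < y → A z < A y := by
      intro z hz y hy hzy
      have h1 : C z < C y := ((hVH X).2.1 _ _ _ _ (hC2 z hz) (hC2 y hy)).2 hzy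
      rcases lt_trichotomy (A z) (A y) with h | h | h
      · exact h
      · exfalso
        have h2 := hC1 z hz
        rw [h] at h2
        have h3 := toZFSet_injective (hfu _ _ _ h2 (hC1 y hy))
        exact absurd h1 (h3 ▸ lt_irrefl _)
      · exact absurd (hC3 z hz _ h _ (hC1 y hy)) (not_lt.2 h1.le)
    refine ⟨i, ?_, hi⟩
    obtain ⟨-, g, hg1, hg2, -⟩ := hi
    have h1 : ∀ x y, x < y → y < i → A (g x) < A (g y) := fun x y hxy hyi =>
      hinc _ (hg2 x (hxy.trans hyi)).1 _ (hg2 y hyi).1 (hg1 x y hxy hyi)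
    have h2 := le_of_incr h1
    have h3 : i ≤ A z := by
      by_contra hc
      push Not at hc
      have h4 := h2 _ hc
      have h5 := hinc _ (hg2 _ hc).1 _ hz (hg2 _ hc).2
      exact absurd h4 (not_le.2 h5)
    exact h3.trans_lt (hA z hz)

end Pool.Agent.H20.HD.CO
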