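import Pool.Agent.H7.HD.Targets5

/-!
# MP_e37c09_lc: module OT
-/

open Ordinal Cardinal Order Set
open scoped ZFSet

universe u

namespace Pool.Agent.H20.HD.OT

open _root_.HD

theorem nth_uniq (hVH : T_VH.{u}) {X : Set Ordinal.{u}} {a z y : Ordinal.{u}} (h : nth X a z)
    (h' : nth X a y) : z = y := by
  have h1 := (hVH X).2.1 a a z y h h'
  have h2 := (hVH X).2.1 a a y z h' h
  rcases lt_trichotomy z y with h3 | h3 | h3
  · exact absurd (h1.2 h3) (lt_irrefl _)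
  · exact h3
  · exact absurd (h2.2 h3) (lt_irrefl _)

/-- an ordinal at least the first one which is not an index is not an index -/
theorem idx_lt (hVH : T_VH.{u}) {X : Set Ordinal.{u}} {i : Ordinal.{u}}
    (hi : ¬ ∃ z, nth X i z) {a z : Ordinal.{u}} (h : nth X a z) : a < i := by
  by_contra hc
  rcases eq_or_lt_of_le (not_lt.1 hc) with h1 | h1
  · exact hi ⟨z, h1 ▸ h⟩
  · obtain ⟨y, -, hy⟩ := (hVH X).2.2.1 a z h i h1
    exact hi ⟨y, hy⟩

/-- OT. -/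
theorem ot : T_OT.{u} := by
  have hVH := All.vh.{u}
  intro lam I hlam hI hsub hunb
  by_contra hcon
  push Not at hcon
  obtain ⟨i, hilam, hi⟩ := hcon
  obtain ⟨i0, ⟨hi0l, hi0⟩, hmin⟩ := WellFounded.has_min (wellFounded_lt (α := Ordinal.{u}))
    {i | i < lam ∧ ∀ z, ¬ nth I i z} ⟨i, hilam, hi⟩
  have hex : ∀ a < i0, ∃ z, nth I a z := by
    intro a ha
    by_contra h
    push Not at h
    exact hmin a ⟨ha.trans hi0l, h⟩ ha
  have hi0' : ¬ ∃ z, nth I i0 z := by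
    rintro ⟨z, hz⟩
    exact hi0 z hz
  have hR : DR fun a z => nth I a z :=
    All.db (fun a _ => a ∈ I) (hI.congr fun _ => Iff.rfl)
  refine hlam.2 ⟨i0, hi0l, rs i0 lam (fun a z => nth I a z), hod_rs hR i0 lam, ⟨?_, ?_⟩, ?_⟩
  · intro p hp
    obtain ⟨a, ha, b, hb, -, rfl⟩ := mem_rs.1 hp
    rw [ZFSet.pair_mem_prod]
    exact ⟨toZFSet_mem_toZFSet_iff.2 ha, toZFSet_mem_toZFSet_iff.2 hb⟩
  · intro z hz
    obtain ⟨a, ha, rfl⟩ := mem_toZFSet_iff.1 hz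
    obtain ⟨y, hy⟩ := hex a ha
    refine ⟨y.toZFSet, pair_mem_rs.2 ⟨ha, hsub hy.1, hy⟩, ?_⟩
    intro w hw
    obtain ⟨a', ha', b, hb, hab, he⟩ := mem_rs.1 hw
    obtain ⟨h1, h2⟩ := ZFSet.pair_injective he
    rw [toZFSet_injective h1] at hy
    rw [h2, nth_uniq hVH hab hy]
  · intro b hb
    obtain ⟨z, hz, hbz⟩ := hunb b hb
    obtain ⟨a, -, ha⟩ := (hVH I).1 z hz
    have h1 := idx_lt hVH hi0' ha
    exact ⟨a, h1, z, hbz, pair_mem_rs.2 ⟨h1, hsub hz, ha⟩⟩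

end Pool.Agent.H20.HD.OT
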