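import Pool.Agent.H7.HD.Tools2

/-!
# MP_e37c09_lc: module XA
-/

open Ordinal Cardinal Order Set
open scoped ZFSet

universe u

namespace Pool.Agent.H20.HD.XA

open _root_.HD

/-- relativisation to the sets which are elements of some set -/
def rel : Fml → Fml
  | .mem i j => .mem i j
  | .eq i j => .eq i j
  | .neg φ => .neg (rel φ)
  | .and φ ψ => .and (rel φ) (rel ψ)
  | .ex φ => .ex (.and (.ex (.mem 1 0)) (rel φ))

theorem mem_V_iff {η : Ordinal.{u}} {x : ZFSet.{u}} :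
    x ∈ V_ η ↔ x ∈ V_ (η + 1) ∧ ∃ y, y ∈ V_ (η + 1) ∧ x ∈ y := by
  constructor
  · intro h
    rw [ZFSet.mem_vonNeumann] at h
    refine ⟨?_, V_ η, ?_, ?_⟩
    · rw [ZFSet.mem_vonNeumann]
      exact h.trans (lt_add_one η)
    · rw [ZFSet.mem_vonNeumann, ZFSet.rank_vonNeumann]
      exact lt_add_one η
    · rwa [ZFSet.mem_vonNeumann]
  · rintro ⟨-, y, hy, hxy⟩
    rw [ZFSet.mem_vonNeumann] at hy ⊢
    exact (ZFSet.rank_lt_of_mem hxy).trans_le (Order.lt_add_one_iff.1 hy)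

theorem sat_rel (η : Ordinal.{u}) (φ : Fml) : ∀ v : ℕ → ZFSet.{u},
    Sat (· ∈ V_ (η + 1)) (rel φ) v ↔ Sat (· ∈ V_ η) φ v := by
  induction φ with
  | mem i j => exact fun _ => Iff.rfl
  | eq i j => exact fun _ => Iff.rfl
  | neg φ ih => exact fun v => not_congr (ih v)
  | and φ ψ ih1 ih2 => exact fun v => and_congr (ih1 v) (ih2 v)
  | ex φ ih =>
    intro v
    refine exists_congr fun x => ?_
    show (x ∈ V_ (η + 1) ∧ (∃ y, y ∈ V_ (η + 1) ∧ x ∈ y) ∧
      Sat (· ∈ V_ (η + 1)) (rel φ) (cons x v)) ↔ _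
    rw [ih, ← and_assoc, ← mem_V_iff]

/-- XA. -/
theorem xa : T_XA.{u} := by
  intro δ hδ β
  let η : Ordinal.{u} := max (max β δ) ω + ω
  have h0 : max (max β δ) ω < η := by
    have : (0 : Ordinal.{u}) < ω := omega0_pos
    exact lt_add_of_pos_right _ this
  have hβ : β < η := lt_of_le_of_lt ((le_max_left _ _).trans (le_max_left _ _)) h0
  have hδη : δ < η := lt_of_le_of_lt ((le_max_right _ _).trans (le_max_left _ _)) h0
  have hω : ω < η := lt_of_le_of_lt (le_max_right _ _) h0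
  have hlim : IsSuccLimit η := isSuccLimit_add _ isSuccLimit_omega0
  obtain ⟨θ, hθ, j, hmap, helem, hfix, d, hd, hjd⟩ := hδ η hδη
  have hsub : ∀ x ∈ V_ η, x ∈ V_ (η + 1) := fun x hx => (mem_V_iff.1 hx).1
  have hmap' : ∀ x ∈ V_ η, j x ∈ V_ θ := by
    intro x hx
    have h1 := (helem (.ex (.mem 1 0)) (fun _ => x) (fun _ => hsub x hx)).1
      (mem_V_iff.1 hx).2
    exact mem_V_iff.2 ⟨hmap x (hsub x hx), h1⟩
  have helem' : ∀ (φ : Fml) (v : ℕ → ZFSet.{u}), (∀ n, v n ∈ V_ η) →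
      (Sat (· ∈ V_ η) φ v ↔ Sat (· ∈ V_ θ) φ (j ∘ v)) := by
    intro φ v hv
    rw [← sat_rel η φ v, ← sat_rel θ φ (j ∘ v), helem _ _ fun n => hsub _ (hv n)]
  have hempty : (∅ : ZFSet.{u}) ∈ V_ η := by
    rw [ZFSet.mem_vonNeumann, ZFSet.rank_empty]
    exact omega0_pos.trans hω
  have hθlim : IsSuccLimit θ := by
    have h1 : Sat (· ∈ V_ η) (.neg (.ex (.neg (.ex (.mem 1 0))))) (fun _ => (∅ : ZFSet.{u})) := by
      rintro ⟨x, hx, hn⟩
      apply hn
      refine ⟨{x}, ?_, ?_⟩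
      · have h2 := ZFSet.mem_vonNeumann.1 hx
        show ({x} : ZFSet.{u}) ∈ V_ η
        rw [ZFSet.mem_vonNeumann, ZFSet.rank_singleton]
        exact hlim.succ_lt h2
      · exact ZFSet.mem_singleton.2 rfl
    have h2 := (helem' _ _ fun _ => hempty).1 h1
    rw [Ordinal.isSuccLimit_iff]
    refine ⟨?_, ?_⟩
    · intro h3
      rw [h3] at hθ
      exact absurd hθ (not_lt.2 zero_le)
    · intro ζ hζ
      have hζθ : ζ + 1 = θ := by
        have := hζ.succ_eq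
        rwa [Order.succ_eq_add_one] at this
      apply h2
      refine ⟨ζ.toZFSet, ?_, ?_⟩
      · show ζ.toZFSet ∈ V_ θ
        rw [Gd.ord, ← hζθ]
        exact lt_add_one ζ
      · rintro ⟨y, hy, hxy⟩
        have h4 : y ∈ V_ θ := hy
        rw [ZFSet.mem_vonNeumann] at h4
        have h5 : ζ.toZFSet.rank < y.rank := ZFSet.rank_lt_of_mem hxy
        rw [rank_toZFSet] at h5
        rw [← hζθ] at h4
        exact absurd h5 (not_lt.2 (Order.lt_add_one_iff.1 h4))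
  refine ⟨η, hβ, θ, j, ⟨⟨hlim, hω⟩, ⟨hθlim, hω.trans hθ⟩, hδη, hmap', helem', hfix, ?_⟩⟩
  rw [hjd, rank_toZFSet]
  exact hd

end Pool.Agent.H20.HD.XA
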